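import Mathlib
import Pool.Agent.Q153.Tau4.Main

/-!
# The maximum size of `4`-independent sets is not monotone over the odd cyclic groups
-/

set_option autoImplicit false

namespace Pool.Agent.Results.MP_3bc6ef_co.NotMonotone

/-- `A` is `t`-independent: `∑ λ_a a ≠ 0` for all integers `λ_a` (`a ∈ A`) with
`1 ≤ ∑ |λ_a| ≤ t`. -/
def Independent {n : ℕ} (t : ℕ) (A : Finset (ZMod n)) : Prop :=
  ∀ c : ZMod n → ℤ, 1 ≤ ∑ a ∈ A, |c a| → ∑ a ∈ A, |c a| ≤ t → ∑ a ∈ A, c a • a ≠ 0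

/-- `τ_±(Z_n,[1,t])`: the largest size of a `t`-independent subset of `Z_n` (`0` if only the empty
set is `t`-independent). -/
noncomputable def tau (n t : ℕ) : ℕ :=
  sSup {k | ∃ A : Finset (ZMod n), Independent t A ∧ A.card = k}

/-- **Theorem.** `τ_±(Z_71,[1,4]) ≥ 5`, `τ_±(Z_73,[1,4]) ≤ 4` and `τ_±(Z_75,[1,4]) ≥ 5`. Hence the
sequence `k ↦ τ_±(Z_{2k+1},[1,4])` of the values at the odd positive integers is neither
nondecreasing nor nonincreasing. -/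
theorem result :
    (5 ≤ tau 71 4 ∧ tau 73 4 ≤ 4 ∧ 5 ≤ tau 75 4) ∧
      ¬ Monotone (fun k : ℕ => tau (2 * k + 1) 4) ∧
      ¬ Antitone (fun k : ℕ => tau (2 * k + 1) 4) := by
  have h1 : 5 ≤ tau 71 4 := Pool.Agent.Q153.Tau4.tau71
  have h2 : tau 73 4 ≤ 4 := Nat.lt_succ_iff.1 Pool.Agent.Q153.Tau4.tau73
  have h3 : 5 ≤ tau 75 4 := Pool.Agent.Q153.Tau4.tau75
  refine ⟨⟨h1, h2, h3⟩, ?_, ?_⟩
  · intro hm
    have h4 : tau 71 4 ≤ tau 73 4 := hm (show 35 ≤ 36 by norm_num)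
    omega
  · intro hm
    have h4 : tau 75 4 ≤ tau 73 4 := hm (show 36 ≤ 37 by norm_num)
    omega

end Pool.Agent.Results.MP_3bc6ef_co.NotMonotone
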